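import Pool.Agent.T2h50.DB.Final

set_option autoImplicit false

/-!
# Balanced generalized de Bruijn sequences over alphabets with at least three letters

A cyclic sequence of length `n` over `A` is a function `a : ZMod n → A`.  We prove that a balanced
generalized de Bruijn sequence with parameters `(n, l, k)` over an alphabet of size `m ≥ 3` exists
if and only if `m` divides `n` and `k ≥ n / m ^ l`.
-/

namespace Pool.Agent.Results.MP_a9eae2_co.BalancedDeBruijn

/-- the starting positions `i` at which the word `w` of length `l` occurs in the cyclic sequence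
`a` -/
def occurrences {A : Type} {n l : ℕ} (a : ZMod n → A) (w : Fin l → A) : Set (ZMod n) :=
  {i | ∀ j : Fin l, a (i + ((j : ℕ) : ZMod n)) = w j}

/-- every word of length `l` occurs at no more than `k` starting positions -/
def IsGenDeBruijn {A : Type} (n l k : ℕ) (a : ZMod n → A) : Prop :=
  ∀ w : Fin l → A, (occurrences a w).ncard ≤ k

/-- all letters of the alphabet occur equally often -/
def IsBalanced {A : Type} {n : ℕ} (a : ZMod n → A) : Prop :=
  ∀ c d : A, {i | a i = c}.ncard = {i | a i = d}.ncard

theorem result (A : Type) [Fintype A] (hA : 3 ≤ Fintype.card A) (n l k : ℕ) (hn : 0 < n)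
    (hl : 0 < l) (_hk : 0 < k) :
    (∃ a : ZMod n → A, IsBalanced a ∧ IsGenDeBruijn n l k a) ↔
      (Fintype.card A ∣ n ∧ (n : ℚ) / (Fintype.card A : ℚ) ^ l ≤ k) := by
  classical
  set m := Fintype.card A with hm
  have hmpos : 0 < m := by omega
  have : NeZero m := ⟨by omega⟩
  have : NeZero n := ⟨by omega⟩
  have hQ : (n : ℚ) / (m : ℚ) ^ l ≤ k ↔ n ≤ k * m ^ l := by
    rw [div_le_iff₀ (by positivity)]
    exact_mod_cast Iff.rfl
  rw [hQ]
  constructor
  · rintro ⟨a, hb, hg⟩
    constructor
    · -- balance
      obtain ⟨c0⟩ : Nonempty A := Fintype.card_pos_iff.1 (by omega)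
      have h1 : n = ∑ c : A, {i | a i = c}.ncard := by
        have h2 : Fintype.card (ZMod n) = n := ZMod.card n
        have h3 := Finset.card_eq_sum_card_fiberwise (f := a) (s := Finset.univ)
          (t := Finset.univ) (fun _ _ => Finset.mem_coe.2 (Finset.mem_univ _))
        rw [Finset.card_univ, h2] at h3
        refine h3.trans (Finset.sum_congr rfl fun c _ => ?_)
        rw [Set.ncard_eq_toFinset_card']
        congr 1
        ext i
        simp only [Finset.mem_filter, Finset.mem_univ, true_and, Set.mem_toFinset,
          Set.mem_ofPred_eq]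
      rw [Finset.sum_congr rfl (fun c _ => hb c c0), Finset.sum_const, Finset.card_univ,
        smul_eq_mul] at h1
      exact ⟨_, h1⟩
    · -- counting
      have h2 : Fintype.card (ZMod n) = n := ZMod.card n
      have h3 := Finset.card_eq_sum_card_fiberwise
        (f := fun (i : ZMod n) (j : Fin l) => a (i + ((j : ℕ) : ZMod n)))
        (s := Finset.univ) (t := Finset.univ) (fun _ _ => Finset.mem_coe.2 (Finset.mem_univ _))
      rw [Finset.card_univ, h2] at h3
      have h4 : ∀ w : Fin l → A, (Finset.univ.filter fun i : ZMod n =>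
          (fun j : Fin l => a (i + ((j : ℕ) : ZMod n))) = w).card ≤ k := by
        intro w
        refine le_trans (le_of_eq ?_) (hg w)
        rw [Set.ncard_eq_toFinset_card']
        congr 1
        ext i
        rw [Finset.mem_filter, Set.mem_toFinset]
        simp only [Finset.mem_univ, true_and, occurrences, Set.mem_ofPred_eq, funext_iff]
      calc n = _ := h3
        _ ≤ ∑ w : Fin l → A, k := Finset.sum_le_sum (fun w _ => h4 w)
        _ = k * m ^ l := by
          rw [Finset.sum_const, Finset.card_univ, Fintype.card_fun, Fintype.card_fin, smul_eq_mul,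
            mul_comm]
  · rintro ⟨⟨q, hq⟩, hle⟩
    have hq1 : 1 ≤ q := by
      rcases Nat.eq_zero_or_pos q with h | h
      · subst h; omega
      · exact h
    have e : A ≃ ZMod m := Fintype.equivOfCardEq (by rw [ZMod.card])
    subst hq
    obtain ⟨p, rfl | rfl⟩ : ∃ p, l = p + 2 ∨ l = 1 := by
      rcases Nat.lt_or_ge l 2 with h | h
      · exact ⟨0, Or.inr (by omega)⟩
      · exact ⟨l - 2, Or.inl (by omega)⟩
    · have hle' : q ≤ k * m ^ (p + 1) := by
        have : m * q ≤ m * (k * m ^ (p + 1)) := by
          calc m * q ≤ k * m ^ (p + 2) := hle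
            _ = m * (k * m ^ (p + 1)) := by ring
        exact Nat.le_of_mul_le_mul_left this hmpos
      obtain ⟨a, ha1, ha2⟩ := Pool.Agent.T2h50.DB.exists_seq hA p q k hq1 hle'
      refine ⟨fun i => e.symm (a i), ?_, ?_⟩
      · have h3 : ∀ c, {i | e.symm (a i) = c}.ncard = q := by
          intro c
          rw [← Nat.card_coe_set_eq]
          refine (Nat.card_congr (Equiv.subtypeEquivRight (fun i => ?_))).trans (ha1 (e c))
          exact Equiv.symm_apply_eq e
        intro c d
        rw [h3, h3]
      · intro w
        rw [← Nat.card_coe_set_eq]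
        refine le_trans (le_of_eq ?_) (ha2 (fun j => e (w j)))
        refine Nat.card_congr (Equiv.subtypeEquivRight (fun i => ?_))
        simp only [occurrences, Set.mem_ofPred_eq, Equiv.symm_apply_eq]
    · have hle' : q ≤ k := by
        rw [pow_one, mul_comm k m] at hle
        exact Nat.le_of_mul_le_mul_left hle hmpos
      obtain ⟨a, ha1, _⟩ := Pool.Agent.T2h50.DB.exists_seq hA 0 q k hq1
        (le_trans hle' (Nat.le_mul_of_pos_right k (Nat.pow_pos hmpos)))
      have h3 : ∀ c, {i | e.symm (a i) = c}.ncard = q := by
        intro c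
        rw [← Nat.card_coe_set_eq]
        refine (Nat.card_congr (Equiv.subtypeEquivRight (fun i => ?_))).trans (ha1 (e c))
        exact Equiv.symm_apply_eq e
      refine ⟨fun i => e.symm (a i), ?_, ?_⟩
      · intro c d
        rw [h3, h3]
      · intro w
        refine le_trans (le_of_eq ?_) hle'
        refine Eq.trans ?_ (h3 (w 0))
        congr 1
        ext i
        simp [occurrences]

end Pool.Agent.Results.MP_a9eae2_co.BalancedDeBruijn
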